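import Pool.Agent.helper81.BS.SpecG

/-!
# Edge bisection, module A1: components
-/

set_option autoImplicit false
set_option linter.dupNamespace false

namespace Pool.Agent.helper81.BS

open Pool.Agent.helper81.PL Function

theorem A1_grow {n : ℕ} {E M X : Finset ℕ} {u : ℕ} : u ∈ grow1 n E M X ↔
    u ∈ X ∨ (u ∈ M ∧ ∃ w ∈ X, adjb n E w u = true) := by
  unfold grow1
  rw [Finset.mem_union, Finset.mem_filter, List.any_eq_true]
  simp only [Finset.mem_sort]

theorem A1_sub {n : ℕ} {E M X : Finset ℕ} : X ⊆ grow1 n E M X := fun _ hu =>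
  A1_grow.2 (Or.inl hu)

theorem A1_step {n : ℕ} {E M X : Finset ℕ} {v : ℕ} (h : X ⊆ M ∧ Conn n E v X) :
    grow1 n E M X ⊆ M ∧ Conn n E v (grow1 n E M X) := by
  obtain ⟨h1, h2, h3⟩ := h
  refine ⟨?_, A1_sub h2, ?_⟩
  · intro u hu
    rcases A1_grow.1 hu with h | h
    · exact h1 h
    · exact h.1
  · intro Y hY hv hne
    by_cases hXY : X ⊆ Y
    · obtain ⟨u, hu, huY⟩ : ∃ u ∈ grow1 n E M X, u ∉ Y := by
        by_contra hcon
        push Not at hcon
        exact hne (Finset.Subset.antisymm hY hcon)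
      rcases A1_grow.1 hu with h | ⟨-, w, hw, hwu⟩
      · exact absurd (hXY h) huY
      · exact ⟨w, hXY hw, u, Finset.mem_sdiff.2 ⟨hu, huY⟩, hwu⟩
    · obtain ⟨a, ha, b, hb, hab⟩ := h3 (Y ∩ X) Finset.inter_subset_right
        (Finset.mem_inter.2 ⟨hv, h2⟩) (fun h => hXY (by rw [← h]; exact Finset.inter_subset_left))
      rw [Finset.mem_sdiff, Finset.mem_inter] at hb
      rw [Finset.mem_inter] at ha
      exact ⟨a, ha.1, b, Finset.mem_sdiff.2 ⟨A1_sub hb.1, fun h => hb.2 ⟨h, hb.1⟩⟩, hab⟩

/-- Components. -/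
theorem A1 : A1_stmt := by
  intro N n E M v hN hM hv
  have h0 : ({v} : Finset ℕ) ⊆ M ∧ Conn n E v {v} := by
    refine ⟨Finset.singleton_subset_iff.2 hv, Finset.mem_singleton_self v, ?_⟩
    intro X hX hvX hne
    exact absurd (Finset.Subset.antisymm hX (Finset.singleton_subset_iff.2 hvX)) hne
  obtain ⟨e1, e2, e3⟩ := citer_inv (N := N) (n := n) (s := fun X => grow1 n E M X) (x := {v})
    (fun X => X ⊆ M ∧ Conn n E v X) h0 (fun X hX => A1_step hX) (fun X hX => by
      rw [fits_finset]
      intro x hx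
      exact (Finset.mem_range.1 (hM (hX.1 hx))).trans_le hN)
  have hcomp : comp N n E M v = (fun X => grow1 n E M X)^[n] {v} := e1
  rw [hcomp]
  refine ⟨e2, e3, ?_⟩
  have key : ∀ i : ℕ, grow1 n E M ((fun X => grow1 n E M X)^[i] {v}) =
      (fun X => grow1 n E M X)^[i] {v} ∨ i + 1 ≤ ((fun X => grow1 n E M X)^[i] {v}).card := by
    intro i
    induction i with
    | zero =>
      right
      rw [iterate_zero, id, Finset.card_singleton]
    | succ i ih =>
      rw [iterate_succ_apply']
      rcases ih with h | h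
      · left
        show grow1 n E M (grow1 n E M _) = grow1 n E M _
        rw [h, h]
      · by_cases hf : grow1 n E M ((fun X => grow1 n E M X)^[i] {v}) =
            (fun X => grow1 n E M X)^[i] {v}
        · left
          show grow1 n E M (grow1 n E M _) = grow1 n E M _
          rw [hf, hf]
        · right
          have hlt := Finset.card_lt_card (Finset.ssubset_iff_subset_ne.2
            ⟨A1_sub (n := n) (E := E) (M := M) (X := (fun X => grow1 n E M X)^[i] {v}),
              Ne.symm hf⟩)
          show i + 1 + 1 ≤ (grow1 n E M _).card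
          omega
  intro a ha b hb
  rw [Finset.mem_sdiff] at hb
  by_contra hcon
  rw [Bool.not_eq_false] at hcon
  rcases key n with h | h
  · apply hb.2
    rw [← h]
    exact A1_grow.2 (Or.inr ⟨hb.1, a, ha, hcon⟩)
  · have h5 := Finset.card_le_card (e2.trans hM)
    rw [Finset.card_range] at h5
    omega

end Pool.Agent.helper81.BS
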