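import Pool.Agent.helper81.BS.SpecG

/-!
# Edge bisection, module A4: the flow
-/

set_option autoImplicit false
set_option linter.dupNamespace false

namespace Pool.Agent.helper81.BS

open Pool.Agent.helper81.PL Function

theorem A4_fits {N n : ℕ} {E D : Finset ℕ} (hN : n * n + n ≤ N) (hD : OKD n E D) :
    Clip.Fits N D := by
  rw [fits_finset]
  intro x hx
  obtain ⟨h1, h2, -⟩ := hD.1 x hx
  have h3 : x = n * (x / n) + x % n := (Nat.div_add_mod x n).symm
  have h4 : n * (x / n) ≤ n * n := Nat.mul_le_mul_left _ h1.le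
  omega

theorem A4_aug (h2 : A2_stmt) (h3 : A3_stmt) {N n : ℕ} {E Q P D : Finset ℕ}
    (hN : n * n + n ≤ N) (hQ : Q ⊆ Finset.range n) (hD : OKD n E D) :
    OKD n E (aug N n E Q P D) ∧
    (augPath N n E Q P D = none → aug N n E Q P D = D) ∧
    (augPath N n E Q P D ≠ none → ∀ M, P ⊆ M → Disjoint M Q →
      net n (aug N n E Q P D) M = net n D M + 1) := by
  unfold aug
  rcases h : augPath N n E Q P D with _ | p
  · exact ⟨hD, fun _ => rfl, fun h => absurd rfl h⟩
  · have hp : p ∈ bfs N n E D Q := List.mem_of_find?_eq_some h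
    have hhead := List.find?_some h
    have hhead' : p.headD n ∈ P := by
      simpa [fmem] using hhead
    have hR : RPath n E D Q p := (h2 N n E D Q (by nlinarith) hQ).1 p hp
    obtain ⟨q, hq, hl⟩ := hR.2.2.2
    obtain ⟨h4, h5⟩ := h3 N n E D Q p (by omega) hD hR
    refine ⟨h4, fun h => absurd h (Option.some_ne_none p), fun _ M hM hMQ => ?_⟩
    have h6 := h5 M q hl
    rw [if_pos (hM hhead'), if_neg (fun h => Finset.disjoint_left.1 hMQ h hq), sub_zero] at h6
    exact h6

/-- The flow. -/
theorem A4 (h2 : A2_stmt) (h3 : A3_stmt) : A4_stmt := by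
  intro N n E Q P c hN hQ
  have h0 : OKD n E ∅ := ⟨fun x hx => absurd hx (Finset.notMem_empty x),
    fun a _ b _ h => absurd h (Finset.notMem_empty _)⟩
  obtain ⟨e1, e2⟩ := citer_inv (N := N) (n := c + 1) (s := fun D => aug N n E Q P D) (x := ∅)
    (OKD n E) h0 (fun D hD => (A4_aug h2 h3 hN hQ hD).1) (fun D hD => A4_fits hN hD)
  have e3 : flow N n E Q P c = (fun D => aug N n E Q P D)^[c + 1] ∅ := e1
  rw [e3]
  refine ⟨e2, ?_⟩
  have key : ∀ i : ℕ, OKD n E ((fun D => aug N n E Q P D)^[i] ∅) ∧ ∃ val : ℕ,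
      (∀ M, P ⊆ M → Disjoint M Q → net n ((fun D => aug N n E Q P D)^[i] ∅) M = val) ∧
      (augPath N n E Q P ((fun D => aug N n E Q P D)^[i] ∅) ≠ none → val = i) := by
    intro i
    induction i with
    | zero =>
      refine ⟨h0, 0, fun M _ _ => ?_, fun _ => rfl⟩
      rw [iterate_zero, id]
      unfold net
      rw [Finset.sum_empty]
      rfl
    | succ i ih =>
      obtain ⟨h1, val, hv, hw⟩ := ih
      rw [iterate_succ_apply']
      obtain ⟨g1, g2, g3⟩ := A4_aug h2 h3 (P := P) hN hQ h1
      refine ⟨g1, ?_⟩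
      by_cases h : augPath N n E Q P ((fun D => aug N n E Q P D)^[i] ∅) = none
      · have g4 := g2 h
        refine ⟨val, ?_, ?_⟩
        · show ∀ M, P ⊆ M → Disjoint M Q → net n (aug N n E Q P _) M = val
          rw [g4]
          exact hv
        · show augPath N n E Q P (aug N n E Q P _) ≠ none → _
          rw [g4]
          exact fun h' => absurd h h'
      · refine ⟨val + 1, fun M hM hMQ => ?_, fun _ => by rw [hw h]⟩
        have g5 := g3 h M hM hMQ
        rw [hv M hM hMQ] at g5
        show net n (aug N n E Q P _) M = _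
        rw [g5]
        push_cast
        rfl
  exact (key (c + 1)).2

end Pool.Agent.helper81.BS
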