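import Pool.Agent.helper81.BS.SpecG

/-!
# Edge bisection, module A5: flows and cuts
-/

set_option autoImplicit false
set_option linter.dupNamespace false

namespace Pool.Agent.helper81.BS

open Pool.Agent.helper81.PL

theorem A5_mem_dl {n : ℕ} {E M : Finset ℕ} {e : ℕ} : e ∈ dl n E M ↔
    e ∈ E ∧ ((e / n ∈ M ∧ e % n ∉ M) ∨ (e / n ∉ M ∧ e % n ∈ M)) := by
  unfold dl fmem
  rw [Finset.mem_filter]
  by_cases h1 : e / n ∈ M <;> by_cases h2 : e % n ∈ M <;> simp [h1, h2]

theorem A5_adjb {n : ℕ} {E : Finset ℕ} {a b : ℕ} : adjb n E a b = true ↔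
    a * n + b ∈ E ∨ b * n + a ∈ E := by
  unfold adjb fmem
  simp

theorem A5_res {n : ℕ} {E D : Finset ℕ} {a b : ℕ} : res n E D a b = true ↔
    adjb n E a b = true ∧ a * n + b ∉ D := by
  unfold res fmem
  simp

theorem A5_code {n a b : ℕ} (hb : b < n) : (a * n + b) / n = a ∧ (a * n + b) % n = b := by
  have hn : 0 < n := by omega
  constructor
  · rw [Nat.add_comm, Nat.add_mul_div_right _ _ hn, Nat.div_eq_of_lt hb, Nat.zero_add]
  · rw [Nat.add_comm, Nat.add_mul_mod_self_right, Nat.mod_eq_of_lt hb]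

theorem A5_self (n x : ℕ) : x / n * n + x % n = x := by
  rw [Nat.mul_comm]
  exact Nat.div_add_mod x n

/-- the edge code of an arc -/
def A5_ec (n x : ℕ) : ℕ := min (x / n) (x % n) * n + max (x / n) (x % n)

theorem A5_mem {n : ℕ} {E : Finset ℕ} (hE : WF n E) {x : ℕ} (h1 : x / n < n) (h2 : x % n < n)
    (h3 : adjb n E (x / n) (x % n) = true) : A5_ec n x ∈ E := by
  rw [A5_adjb] at h3
  unfold A5_ec
  rcases h3 with h | h
  · have h4 := (hE _ h).1
    rw [(A5_code h2).1, (A5_code h2).2] at h4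
    rw [min_eq_left h4.le, max_eq_right h4.le]
    exact h
  · have h4 := (hE _ h).1
    rw [(A5_code h1).1, (A5_code h1).2] at h4
    rw [min_eq_right h4.le, max_eq_left h4.le]
    exact h

theorem A5_ends {n x : ℕ} (h1 : x / n < n) (h2 : x % n < n) :
    A5_ec n x / n = min (x / n) (x % n) ∧ A5_ec n x % n = max (x / n) (x % n) :=
  A5_code (max_lt h1 h2)

theorem A5_dl {n : ℕ} {E M : Finset ℕ} (hE : WF n E) {x : ℕ} (h1 : x / n < n) (h2 : x % n < n)
    (h3 : adjb n E (x / n) (x % n) = true) (h4 : x / n ∈ M) (h5 : x % n ∉ M) :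
    A5_ec n x ∈ dl n E M := by
  rw [A5_mem_dl, (A5_ends h1 h2).1, (A5_ends h1 h2).2]
  refine ⟨A5_mem hE h1 h2 h3, ?_⟩
  rcases le_total (x / n) (x % n) with h | h
  · rw [min_eq_left h, max_eq_right h]
    exact Or.inl ⟨h4, h5⟩
  · rw [min_eq_right h, max_eq_left h]
    exact Or.inr ⟨h5, h4⟩

theorem A5_inj {n x y : ℕ} (h1 : x / n < n) (h2 : x % n < n) (h3 : y / n < n) (h4 : y % n < n)
    (h : A5_ec n x = A5_ec n y) : x = y ∨ (x / n = y % n ∧ x % n = y / n) := by
  have e1 : min (x / n) (x % n) = min (y / n) (y % n) := by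
    rw [← (A5_ends h1 h2).1, ← (A5_ends h3 h4).1, h]
  have e2 : max (x / n) (x % n) = max (y / n) (y % n) := by
    rw [← (A5_ends h1 h2).2, ← (A5_ends h3 h4).2, h]
  have key : (x / n = y / n ∧ x % n = y % n) ∨ (x / n = y % n ∧ x % n = y / n) := by
    rcases le_total (x / n) (x % n) with h5 | h5 <;> rcases le_total (y / n) (y % n) with h6 | h6
    · rw [min_eq_left h5, min_eq_left h6] at e1
      rw [max_eq_right h5, max_eq_right h6] at e2
      exact Or.inl ⟨e1, e2⟩
    · rw [min_eq_left h5, min_eq_right h6] at e1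
      rw [max_eq_right h5, max_eq_left h6] at e2
      exact Or.inr ⟨e1, e2⟩
    · rw [min_eq_right h5, min_eq_left h6] at e1
      rw [max_eq_left h5, max_eq_right h6] at e2
      exact Or.inr ⟨e2, e1⟩
    · rw [min_eq_right h5, min_eq_right h6] at e1
      rw [max_eq_left h5, max_eq_left h6] at e2
      exact Or.inl ⟨e2, e1⟩
  rcases key with h5 | h5
  · left
    rw [← A5_self n x, ← A5_self n y, h5.1, h5.2]
  · exact Or.inr h5

/-- arcs leaving `M` -/
def A5_out (n : ℕ) (D M : Finset ℕ) : Finset ℕ := D.filter (fun x => x / n ∈ M ∧ x % n ∉ M)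

/-- arcs entering `M` -/
def A5_inn (n : ℕ) (D M : Finset ℕ) : Finset ℕ := D.filter (fun x => x / n ∉ M ∧ x % n ∈ M)

theorem A5_net (n : ℕ) (D M : Finset ℕ) :
    net n D M = ((A5_out n D M).card : ℤ) - ((A5_inn n D M).card : ℤ) := by
  unfold net A5_out A5_inn
  rw [Finset.card_filter, Finset.card_filter]
  push_cast
  rw [← Finset.sum_sub_distrib]
  refine Finset.sum_congr rfl fun x _ => ?_
  by_cases h1 : x / n ∈ M <;> by_cases h2 : x % n ∈ M <;> simp [h1, h2]

theorem A5_image {n : ℕ} {E D : Finset ℕ} (hE : WF n E) (hD : OKD n E D) (M : Finset ℕ) :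
    (A5_out n D M).image (A5_ec n) ⊆ dl n E M ∧
      ((A5_out n D M).image (A5_ec n)).card = (A5_out n D M).card := by
  constructor
  · intro z hz
    rw [Finset.mem_image] at hz
    obtain ⟨x, hx, rfl⟩ := hz
    unfold A5_out at hx
    rw [Finset.mem_filter] at hx
    obtain ⟨h1, h2, h3⟩ := hD.1 x hx.1
    exact A5_dl hE h1 h2 h3 hx.2.1 hx.2.2
  · refine Finset.card_image_of_injOn ?_
    intro x hx y hy hxy
    unfold A5_out at hx hy
    rw [Finset.mem_coe, Finset.mem_filter] at hx hy
    obtain ⟨h1, h2, -⟩ := hD.1 x hx.1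
    obtain ⟨h3, h4, -⟩ := hD.1 y hy.1
    rcases A5_inj h1 h2 h3 h4 hxy with h | h
    · exact h
    · exfalso
      have h5 := hD.2 (x / n) h1 (x % n) h2 (by rw [A5_self]; exact hx.1)
      rw [h.1, h.2, A5_self] at h5
      exact h5 hy.1

/-- Flows and cuts. -/
theorem A5 : A5_stmt := by
  intro n E D hE hD
  have hle : ∀ M, (A5_out n D M).card ≤ dd n E M := fun M => by
    rw [← (A5_image hE hD M).2]
    exact Finset.card_le_card (A5_image hE hD M).1
  refine ⟨?_, ?_, ?_⟩
  · intro M _
    have h1 := hle M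
    rw [A5_net]
    omega
  · intro B hB hcl
    have hinn : (A5_inn n D (Finset.range n \ B)).card = 0 := by
      rw [Finset.card_eq_zero, Finset.eq_empty_iff_forall_notMem]
      intro x hx
      unfold A5_inn at hx
      rw [Finset.mem_filter] at hx
      obtain ⟨hxD, h1, h2⟩ := hx
      obtain ⟨h3, h4, h5⟩ := hD.1 x hxD
      rw [Finset.mem_sdiff, Finset.mem_range] at h1 h2
      have h6 : x / n ∈ B := by
        by_contra hcon
        exact h1 ⟨h3, hcon⟩
      have h7 := hD.2 (x / n) h3 (x % n) h4 (by rw [A5_self]; exact hxD)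
      refine h2.2 (hcl (x % n) h4 (x / n) h6 (A5_res.2 ⟨?_, h7⟩))
      rw [A5_adjb] at h5 ⊢
      exact h5.symm
    have hsub : dl n E (Finset.range n \ B) ⊆
        (A5_out n D (Finset.range n \ B)).image (A5_ec n) := by
      intro e he
      obtain ⟨heE, hends⟩ := A5_mem_dl.1 he
      obtain ⟨hlt1, hlt2⟩ := hE e heE
      have key : ∀ a b, a < n → b < n → a ∈ Finset.range n \ B → b ∉ Finset.range n \ B →
          adjb n E a b = true → A5_ec n (a * n + b) = e →
          e ∈ (A5_out n D (Finset.range n \ B)).image (A5_ec n) := by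
        intro a b ha hb haM hbM hadj hec
        have hbB : b ∈ B := by
          by_contra hcon
          exact hbM (Finset.mem_sdiff.2 ⟨Finset.mem_range.2 hb, hcon⟩)
        have hD' : a * n + b ∈ D := by
          by_contra hcon
          exact (Finset.mem_sdiff.1 haM).2 (hcl a ha b hbB (A5_res.2 ⟨hadj, hcon⟩))
        rw [Finset.mem_image]
        refine ⟨a * n + b, ?_, hec⟩
        unfold A5_out
        rw [Finset.mem_filter, (A5_code hb).1, (A5_code hb).2]
        exact ⟨hD', haM, hbM⟩
      rcases hends with h | h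
      · refine key (e / n) (e % n) (by omega) hlt2 h.1 h.2 ?_ ?_
        · rw [A5_adjb, A5_self]
          exact Or.inl heE
        · unfold A5_ec
          rw [A5_self, min_eq_left hlt1.le, max_eq_right hlt1.le, A5_self]
      · refine key (e % n) (e / n) hlt2 (by omega) h.2 h.1 ?_ ?_
        · rw [A5_adjb, A5_self]
          exact Or.inr heE
        · unfold A5_ec
          rw [(A5_code (show e / n < n by omega)).1, (A5_code (show e / n < n by omega)).2,
            min_eq_right hlt1.le, max_eq_left hlt1.le, A5_self]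
    have h1 := Finset.card_le_card hsub
    rw [(A5_image hE hD _).2] at h1
    have h2 := hle (Finset.range n \ B)
    rw [A5_net, hinn]
    unfold dd at h2 ⊢
    omega
  · intro M hM hnet a ha b hb hbM
    by_contra hcon
    rw [Bool.not_eq_false] at hcon
    obtain ⟨hadj, hnD⟩ := A5_res.1 hcon
    have han : a < n := Finset.mem_range.1 (hM ha)
    rw [A5_net] at hnet
    have h1 := hle M
    have h2 : dd n E M ≤ ((A5_out n D M).image (A5_ec n)).card := by
      rw [(A5_image hE hD M).2]
      omega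
    have h3 := Finset.eq_of_subset_of_card_le (A5_image hE hD M).1 h2
    have h4 : A5_ec n (a * n + b) ∈ dl n E M := by
      refine A5_dl hE ?_ ?_ ?_ ?_ ?_
      · rw [(A5_code hb).1]
        exact han
      · rw [(A5_code hb).2]
        exact hb
      · rw [(A5_code hb).1, (A5_code hb).2]
        exact hadj
      · rw [(A5_code hb).1]
        exact ha
      · rw [(A5_code hb).2]
        exact hbM
    rw [← h3, Finset.mem_image] at h4
    obtain ⟨x, hx, hxe⟩ := h4
    unfold A5_out at hx
    rw [Finset.mem_filter] at hx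
    obtain ⟨h5, h6, -⟩ := hD.1 x hx.1
    rcases A5_inj h5 h6 (by rw [(A5_code hb).1]; exact han) (by rw [(A5_code hb).2]; exact hb)
      hxe with h | h
    · rw [h] at hx
      exact hnD hx.1
    · have h7 := hx.2.1
      rw [h.1, (A5_code hb).2] at h7
      exact hbM h7

end Pool.Agent.helper81.BS
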