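import Pool.Agent.helper81.BS.SpecG

/-!
# Edge bisection, module M11: the number of important sets
-/

set_option autoImplicit false
set_option linter.dupNamespace false

namespace Pool.Agent.helper81.BS

open Pool.Agent.helper81.PL

theorem M11_mem_dl {n : ℕ} {E M : Finset ℕ} {e : ℕ} : e ∈ dl n E M ↔
    e ∈ E ∧ ((e / n ∈ M ∧ e % n ∉ M) ∨ (e / n ∉ M ∧ e % n ∈ M)) := by
  unfold dl fmem
  rw [Finset.mem_filter]
  by_cases h1 : e / n ∈ M <;> by_cases h2 : e % n ∈ M <;> simp [h1, h2]

theorem M11_adjb {n : ℕ} {E : Finset ℕ} {a b : ℕ} : adjb n E a b = true ↔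
    a * n + b ∈ E ∨ b * n + a ∈ E := by
  unfold adjb fmem
  simp

theorem M11_code {n a b : ℕ} (hb : b < n) : (a * n + b) / n = a ∧ (a * n + b) % n = b := by
  have hn : 0 < n := by omega
  constructor
  · rw [Nat.add_comm, Nat.add_mul_div_right _ _ hn, Nat.div_eq_of_lt hb, Nat.zero_add]
  · rw [Nat.add_comm, Nat.add_mul_mod_self_right, Nat.mod_eq_of_lt hb]

theorem M11_feas {n : ℕ} {E Q : Finset ℕ} {v e : ℕ} {M : Finset ℕ}
    (h : Feas n (E.erase e) Q v M) : Feas n E Q v M := by
  refine ⟨h.1, h.2.1, h.2.2.1, ?_⟩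
  intro X hX hv hne
  obtain ⟨a, ha, b, hb, hab⟩ := h.2.2.2 X hX hv hne
  refine ⟨a, ha, b, hb, ?_⟩
  rw [M11_adjb] at hab ⊢
  exact hab.imp Finset.mem_of_mem_erase Finset.mem_of_mem_erase

/-- The number of important sets. -/
theorem M11 (h4 : M4_stmt) (h5 : M5_stmt) (h7 : M7_stmt) (h8 : M8_stmt) (h10 : M10_stmt) :
    M11_stmt := by
  intro n E Q v P M c F hE hP hM hF
  have key : ∀ (k : ℕ) (E P M : Finset ℕ) (c : ℕ) (F : Finset (Finset ℕ)),
      2 * c - dd n E M ≤ k → WF n E → Feas n E Q v P → IsFM n E Q v P M →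
      (∀ R ∈ F, Imp n E Q v R ∧ P ⊆ R ∧ dd n E R ≤ c) → F.card * 2 ^ dd n E M ≤ 4 ^ c := by
    intro k
    induction k with
    | zero =>
      intro E P M c F hk hE hP hM hF
      rcases F.eq_empty_or_nonempty with rfl | ⟨R, hR⟩
      · simp
      · obtain ⟨h1, h2, h3⟩ := hF R hR
        have h6 := (hM.2.2 R h1.1 h2).1
        have hc0 : c = 0 := by omega
        subst hc0
        have hdM : dd n E M = 0 := by omega
        rw [hdM, pow_zero, pow_zero, mul_one]
        have hall : ∀ R ∈ F, R = M := by
          intro R hR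
          obtain ⟨h1, h2, h3⟩ := hF R hR
          have hMR := h8 n E Q v P M R hE hP hM h1 h2
          by_contra hne
          have h9 := h1.2
          have h11 := (h7 n E Q v P M hM).2 R h1.1 (Finset.ssubset_iff_subset_ne.2 ⟨hMR, Ne.symm hne⟩)
          omega
        calc F.card ≤ ({M} : Finset (Finset ℕ)).card := Finset.card_le_card (fun R hR => by
              rw [Finset.mem_singleton]
              exact hall R hR)
          _ = 1 := Finset.card_singleton _
    | succ k ih =>
      intro E P M c F hk hE hP hM hF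
      rcases F.eq_empty_or_nonempty with rfl | ⟨R₀, hR₀⟩
      · simp
      obtain ⟨i1, i2, i3⟩ := hF R₀ hR₀
      have hMc : dd n E M ≤ c := (hM.2.2 R₀ i1.1 i2).1.trans i3
      have hMR : ∀ R ∈ F, M ⊆ R := fun R hR =>
        h8 n E Q v P M R hE hP hM (hF R hR).1 (hF R hR).2.1
      have hMI : Imp n E Q v M := h7 n E Q v P M hM
      rcases (dl n E M).eq_empty_or_nonempty with hd | ⟨e, he⟩
      · have hd0 : dd n E M = 0 := by
          unfold dd
          rw [hd, Finset.card_empty]
        rw [hd0, pow_zero, mul_one]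
        have hall : ∀ R ∈ F, R = M := by
          intro R hR
          by_contra hne
          have hRf := (hF R hR).1.1
          obtain ⟨a, ha, b, hb, hab⟩ := hRf.2.2.2 M (hMR R hR) hM.1.2.2.1 (Ne.symm hne)
          rw [Finset.mem_sdiff] at hb
          have hbn : b < n := Finset.mem_range.1 (hRf.1 hb.1)
          have han : a < n := Finset.mem_range.1 (hM.1.1 ha)
          rw [M11_adjb] at hab
          have hempty : ∀ e, e ∉ dl n E M := by
            intro e
            rw [hd]
            exact Finset.notMem_empty e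
          rcases hab with h | h
          · refine hempty _ (M11_mem_dl.2 ⟨h, Or.inl ?_⟩)
            rw [(M11_code hbn).1, (M11_code hbn).2]
            exact ⟨ha, hb.2⟩
          · refine hempty _ (M11_mem_dl.2 ⟨h, Or.inr ?_⟩)
            rw [(M11_code han).1, (M11_code han).2]
            exact ⟨hb.2, ha⟩
        calc F.card ≤ ({M} : Finset (Finset ℕ)).card := Finset.card_le_card (fun R hR => by
              rw [Finset.mem_singleton]
              exact hall R hR)
          _ = 1 := Finset.card_singleton _
          _ ≤ 4 ^ c := Nat.one_le_pow _ _ (by norm_num)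
      · have hd1 : 1 ≤ dd n E M := Finset.card_pos.2 ⟨e, he⟩
        obtain ⟨heE, hends⟩ := M11_mem_dl.1 he
        obtain ⟨hlt1, hlt2⟩ := hE e heE
        -- the two ends
        obtain ⟨a, b, haM, hbM, hbn, hadj, hsep⟩ : ∃ a b, a ∈ M ∧ b ∉ M ∧ b < n ∧
            adjb n E a b = true ∧ ∀ R : Finset ℕ, a ∈ R → b ∉ R → e ∈ dl n E R := by
          have hcode : e / n * n + e % n = e := by
            rw [Nat.mul_comm]
            exact Nat.div_add_mod e n
          rcases hends with h | h
          · refine ⟨e / n, e % n, h.1, h.2, hlt2, ?_, ?_⟩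
            · rw [M11_adjb, hcode]
              exact Or.inl heE
            · intro R h1 h2
              exact M11_mem_dl.2 ⟨heE, Or.inl ⟨h1, h2⟩⟩
          · refine ⟨e % n, e / n, h.2, h.1, by omega, ?_, ?_⟩
            · rw [M11_adjb, hcode]
              exact Or.inr heE
            · intro R h1 h2
              exact M11_mem_dl.2 ⟨heE, Or.inr ⟨h2, h1⟩⟩
        have hsplit : (F.filter (fun R => b ∈ R)).card + (F.filter (fun R => ¬ b ∈ R)).card =
            F.card := Finset.card_filter_add_card_filter_not (fun R => b ∈ R)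
        -- first part
        have e1 : 2 * ((F.filter (fun R => b ∈ R)).card * 2 ^ dd n E M) ≤ 4 ^ c := by
          rcases (F.filter (fun R => b ∈ R)).eq_empty_or_nonempty with h0 | ⟨R₁, hR₁⟩
          · rw [h0]
            simp
          · rw [Finset.mem_filter] at hR₁
            have hbQ : b ∉ Q := fun h =>
              Finset.disjoint_left.1 (hF R₁ hR₁.1).1.1.2.1 hR₁.2 h
            have hP' : Feas n E Q v (insert b M) := (h4 n E Q v M hM.1).2 a haM b hbn hbQ hadj
            obtain ⟨M', hM', -⟩ := h5 n E Q v (insert b M) hE hP'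
            have hss : M ⊂ M' := by
              rw [Finset.ssubset_iff_of_subset ((Finset.subset_insert b M).trans hM'.2.1)]
              exact ⟨b, hM'.2.1 (Finset.mem_insert_self b M), hbM⟩
            have hlt := hMI.2 M' hM'.1 hss
            have hsub : ∀ R ∈ F, b ∈ R → insert b M ⊆ R := fun R hR hbR =>
              Finset.insert_subset hbR (hMR R hR)
            have hle := (hM'.2.2 R₁ (hF R₁ hR₁.1).1.1 (hsub R₁ hR₁.1 hR₁.2)).1.trans
              (hF R₁ hR₁.1).2.2
            have h12 := ih E (insert b M) M' c (F.filter (fun R => b ∈ R)) (by omega) hE hP' hM' (by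
              intro R hR
              rw [Finset.mem_filter] at hR
              exact ⟨(hF R hR.1).1, hsub R hR.1 hR.2, (hF R hR.1).2.2⟩)
            calc 2 * ((F.filter (fun R => b ∈ R)).card * 2 ^ dd n E M) =
                (F.filter (fun R => b ∈ R)).card * 2 ^ (dd n E M + 1) := by ring
              _ ≤ (F.filter (fun R => b ∈ R)).card * 2 ^ dd n E M' :=
                Nat.mul_le_mul_left _ (Nat.pow_le_pow_right (by norm_num) hlt)
              _ ≤ 4 ^ c := h12
        -- second part
        have e2 : 2 * ((F.filter (fun R => ¬ b ∈ R)).card * 2 ^ dd n E M) ≤ 4 ^ c := by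
          obtain ⟨g1, g2, g3⟩ := h10 n E Q v e hE heE
          have hE' : WF n (E.erase e) := fun x hx => hE x (Finset.mem_of_mem_erase hx)
          have hMf : Feas n (E.erase e) Q v M := g1 M hM.1 he
          obtain ⟨M'', hM'', -⟩ := h5 n (E.erase e) Q v M hE' hMf
          have hM''E : Feas n E Q v M'' := M11_feas hM''.1
          have h13 := (hM.2.2 M'' hM''E (hM.2.1.trans hM''.2.1)).1
          have h14 := g2 M''
          have hc1 : 1 ≤ c := hd1.trans hMc
          have h15 := ih (E.erase e) M M'' (c - 1) (F.filter (fun R => ¬ b ∈ R)) (by omega) hE' hMf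
            hM'' (by
              intro R hR
              rw [Finset.mem_filter] at hR
              obtain ⟨g4, g5⟩ := g3 R (hF R hR.1).1 (hsep R (hMR R hR.1 haM) hR.2)
              have := (hF R hR.1).2.2
              exact ⟨g4, hMR R hR.1, by omega⟩)
          calc 2 * ((F.filter (fun R => ¬ b ∈ R)).card * 2 ^ dd n E M) ≤
              2 * ((F.filter (fun R => ¬ b ∈ R)).card * 2 ^ (dd n (E.erase e) M'' + 1)) :=
                Nat.mul_le_mul_left _ (Nat.mul_le_mul_left _
                  (Nat.pow_le_pow_right (by norm_num) (by omega)))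
            _ = 4 * ((F.filter (fun R => ¬ b ∈ R)).card * 2 ^ dd n (E.erase e) M'') := by ring
            _ ≤ 4 * 4 ^ (c - 1) := Nat.mul_le_mul_left _ h15
            _ = 4 ^ (c - 1 + 1) := by ring
            _ = 4 ^ c := by rw [Nat.sub_add_cancel hc1]
        rw [← hsplit, Nat.add_mul]
        omega
  exact key _ E P M c F le_rfl hE hP hM hF

end Pool.Agent.helper81.BS
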