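import Pool.Agent.helper81.BS.SpecG

/-!
# Edge bisection, module T1: step (a) of the uncrossing
-/

set_option autoImplicit false
set_option linter.dupNamespace false

namespace Pool.Agent.helper81.BS

open Pool.Agent.helper81.PL

theorem T1_tch {n : ℕ} {B A : Finset ℕ} {e : ℕ} :
    e ∈ tch n B A ↔ e ∈ B ∧ (e / n ∈ A ∨ e % n ∈ A) := by
  unfold tch fmem
  rw [Finset.mem_filter]
  simp

theorem T1_beta {n : ℕ} {E W : Finset ℕ} {PP : List (Finset ℕ)} {e : ℕ}
    (h : e ∈ beta n E W PP) : e ∈ E ∧ ∀ C ∈ PP, ¬ (e / n ∈ C ∧ e % n ∈ C) := by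
  unfold beta at h
  rw [Finset.mem_filter, T1_tch] at h
  refine ⟨h.1.1, fun C hC hcon => ?_⟩
  have h2 : (PP.any (fun C => fmem (e / n) C && fmem (e % n) C)) = true := by
    rw [List.any_eq_true]
    refine ⟨C, hC, ?_⟩
    unfold fmem
    simp [hcon.1, hcon.2]
  rw [h2] at h
  exact absurd h.2 (by decide)

/-- Step (a). -/
theorem T1 (h2 : M2_stmt) : T1_stmt := by
  intro n E W PP A C hC hlt
  have hm := h2 n E A C
  set X := E.filter (fun e =>
      (e / n ∈ A ∩ C ∧ e % n ∉ A ∪ C) ∨ (e % n ∈ A ∩ C ∧ e / n ∉ A ∪ C)) with hX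
  refine ⟨by omega, ?_⟩
  have hsub : tch n (beta n E W PP) A ⊆ tch n (beta n E W PP) (A \ C) ∪ X := by
    intro e he
    rw [T1_tch] at he
    obtain ⟨hb, ht⟩ := he
    obtain ⟨heE, hpart⟩ := T1_beta hb
    have hnC := hpart C hC
    rw [Finset.mem_union, T1_tch, hX, Finset.mem_filter]
    by_cases h1 : e / n ∈ A \ C ∨ e % n ∈ A \ C
    · exact Or.inl ⟨hb, h1⟩
    · right
      rw [not_or, Finset.mem_sdiff, Finset.mem_sdiff] at h1
      refine ⟨heE, ?_⟩
      rw [Finset.mem_inter, Finset.mem_union, Finset.mem_inter, Finset.mem_union]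
      tauto
  have hcard := (Finset.card_le_card hsub).trans (Finset.card_union_le _ _)
  unfold tt
  omega

end Pool.Agent.helper81.BS
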