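import Pool.Agent.helper81.BS.SpecG

/-!
# Edge bisection, module T2: iteration of step (a)
-/

set_option autoImplicit false
set_option linter.dupNamespace false

namespace Pool.Agent.helper81.BS

open Pool.Agent.helper81.PL Function

theorem T2_violb {n : ℕ} {E W : Finset ℕ} {k : ℕ} {PP : List (Finset ℕ)} {A : Finset ℕ} :
    violb n E W k PP A = true ↔ A ⊆ W ∧ A ≠ W ∧ dd n E A ≤ 2 * k ∧
      dd n E A + 1 ≤ tt n (beta n E W PP) A := by
  unfold violb fsub eqb leb
  simp [and_assoc]

/-- one step -/
theorem T2_step (h1 : T1_stmt) {n : ℕ} {E W : Finset ℕ} {k : ℕ} {PP : List (Finset ℕ)}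
    {X : Finset ℕ} (hX : violb n E W k PP X = true) :
    violb n E W k PP (uncA n E PP X) = true ∧
    ((∀ C ∈ PP, dd n E (C \ X) ≤ dd n E C) → uncA n E PP X = X) ∧
    ((∀ C ∈ PP, dd n E (C \ X) ≤ dd n E C) ∨ dd n E (uncA n E PP X) + 1 ≤ dd n E X) := by
  unfold uncA
  rcases h : PP.find? (fun C => leb (dd n E C + 1) (dd n E (C \ X))) with _ | C
  · rw [List.find?_eq_none] at h
    refine ⟨hX, fun _ => rfl, Or.inl fun C hC => ?_⟩
    have h2 := h C hC
    unfold leb at h2
    rw [decide_eq_true_eq] at h2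
    omega
  · have hC := List.mem_of_find?_eq_some h
    have hp := List.find?_some h
    unfold leb at hp
    rw [decide_eq_true_eq] at hp
    have hlt : dd n E C < dd n E (C \ X) := by omega
    obtain ⟨g1, g2⟩ := h1 n E W PP X C hC hlt
    rw [T2_violb] at hX
    obtain ⟨i1, i2, i3, i4⟩ := hX
    refine ⟨?_, fun hall => ?_, Or.inr g1⟩
    · rw [Option.map_some, Option.getD_some, T2_violb]
      refine ⟨Finset.sdiff_subset.trans i1, ?_, by omega, by omega⟩
      intro heq
      apply i2
      apply Finset.Subset.antisymm i1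
      rw [← heq]
      exact Finset.sdiff_subset
    · have := hall C hC
      omega

/-- Iteration of step (a). -/
theorem T2 (h1 : T1_stmt) : T2_stmt := by
  intro n E W k PP A hA
  have key : ∀ i : ℕ, violb n E W k PP ((fun X => uncA n E PP X)^[i] A) = true ∧
      ((∀ C ∈ PP, dd n E (C \ ((fun X => uncA n E PP X)^[i] A)) ≤ dd n E C) ∨
        dd n E ((fun X => uncA n E PP X)^[i] A) + i ≤ 2 * k) := by
    intro i
    induction i with
    | zero =>
      refine ⟨hA, Or.inr ?_⟩
      rw [T2_violb] at hA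
      exact hA.2.2.1
    | succ i ih =>
      obtain ⟨i1, i2⟩ := ih
      rw [iterate_succ_apply']
      obtain ⟨g1, g2, g3⟩ := T2_step h1 i1
      refine ⟨g1, ?_⟩
      rcases i2 with i2 | i2
      · left
        show ∀ C ∈ PP, dd n E (C \ uncA n E PP _) ≤ dd n E C
        rw [g2 i2]
        exact i2
      · rcases g3 with g3 | g3
        · left
          show ∀ C ∈ PP, dd n E (C \ uncA n E PP _) ≤ dd n E C
          rw [g2 g3]
          exact g3
        · right
          show dd n E (uncA n E PP _) + (i + 1) ≤ 2 * k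
          omega
  obtain ⟨j1, j2⟩ := key (2 * k)
  refine ⟨j1, ?_⟩
  rcases j2 with j2 | j2
  · exact j2
  · rcases (T2_step h1 j1).2.2 with j3 | j3
    · exact j3
    · omega

end Pool.Agent.helper81.BS
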