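import Pool.Agent.helper50.BS.SpecT

set_option autoImplicit false
set_option linter.dupNamespace false

open Finset

open scoped Classical

noncomputable section

namespace Pool.Agent.BS

/-- Total number of sets. -/
theorem TE2 : TE2_stmt := by
  intro g W P a c
  unfold cnt
  calc _ ≤ (g.X0 W).powerset.card := Finset.card_filter_le _ _
    _ = 2 ^ (W.card + (g.EW W).card) := by
      rw [Finset.card_powerset]
      unfold IG.X0
      rw [Finset.card_disjSum]

end Pool.Agent.BS

end
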